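import Pool.Agent.W2helper30.AN.Gen
import Pool.Agent.W2helper30.AN.Dat
import Pool.Agent.W2helper30.AN.Ex
import Pool.Agent.Results.MP_48b1c3_nt.EntangledOnAverage
import Pool.Agent.Results.MP_48b1c3_nt.FewExceptions

/-!
# Lenstra's density for almost all members of sparse families `c₀ + κ ⌊U f(x₀ + 1 / i)⌋`, `f` analytic

Method: Vinogradov's mean value method for the sums of `e(θ f(x₀ + 1 / i))` with a uniform saving
`exp(-c (log M) ^ 3 / (log U) ^ 2)`; a discrete Fejer kernel for the passage to integer parts. The passage from the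
characteristic function to sums over primes of functions of residues, for almost all values, is from the starting files
(`Pool.Agent.R459.Eq`). The density series and the counting functions of the primes are those of the
starting results `EntangledOnAverage` and `FewExceptions` of this problem.
-/

set_option autoImplicit false

namespace Pool.Agent.Results.MP_48b1c3_nt.AnalyticSparseFamilies

open Finset Filter NumberField
open Pool.Agent.R459.EqD (cntZ)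
open Pool.Agent.H771R4.SE (Dat cntE)
open Pool.Agent.W2helper30.AN (Ord AlmostA Rg Sv vl)

/-- `f` is real analytic at `x₀`, and `K ≥ 1` is the order of the zero of `f - f x₀` at `x₀` -/
def OrderAt (f : ℝ → ℝ) (x₀ : ℝ) (K : ℕ) : Prop :=
  AnalyticAt ℝ f x₀ ∧ 1 ≤ K ∧ (∀ j : ℕ, 1 ≤ j → j < K → iteratedDeriv j f x₀ = 0) ∧
    iteratedDeriv K f x₀ ≠ 0

/-- the range of the parameters: `M ^ (K + δ₀) ≤ U ≤ exp ((log M) ^ (3 / 2 - ε₀))` -/
def InRange (K : ℕ) (δ₀ ε₀ : ℝ) (M : ℕ) (U : ℝ) : Prop :=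
  (M : ℝ) ^ ((K : ℝ) + δ₀) ≤ U ∧ U ≤ Real.exp ((Real.log M) ^ (3 / 2 - ε₀))

open Classical in
/-- Almost all the integers `n = c₀ + κ ⌊U f(x₀ + 1 / i)⌋`, `M < i ≤ 2 M`, up to a proportion of at most `τ` of the `i`,
have the property `P`. -/
def Almost (f : ℝ → ℝ) (x₀ U : ℝ) (M : ℕ) (κ c₀ : ℤ) (τ : ℝ) (P : ℤ → Prop) : Prop :=
  (((Ioc M (2 * M)).filter (fun i : ℕ => ¬ P (c₀ + κ * ⌊U * f (x₀ + 1 / i)⌋))).card : ℝ) ≤ τ * M

lemma almost_of {f : ℝ → ℝ} {x₀ U : ℝ} {M : ℕ} {κ c₀ : ℤ} {τ : ℝ} {P Q : ℤ → Prop}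
    (h : AlmostA f x₀ U M κ c₀ τ P) (hPQ : ∀ n, P n → Q n) : Almost f x₀ U M κ c₀ τ Q := by
  have h1 := h.mono hPQ
  unfold AlmostA vl at h1
  unfold Almost
  convert h1

lemma almostA_neg {f : ℝ → ℝ} {x₀ U : ℝ} {M : ℕ} {κ c₀ : ℤ} {τ : ℝ} {P : ℤ → Prop}
    (h : AlmostA f x₀ U M (-κ) (-c₀) τ P) : AlmostA f x₀ U M κ c₀ τ (fun n => P (-n)) := by
  unfold AlmostA at h ⊢
  have e : ∀ m : ℕ, -(c₀ + κ * vl f x₀ U m) = -c₀ + -κ * vl f x₀ U m := fun m => by ring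
  refine le_trans (le_of_eq ?_) h
  apply congrArg (Nat.cast : ℕ → ℝ)
  apply congrArg Finset.card
  ext m
  simp only [mem_filter, e m]

/-- `|cf x - δ π(x)| ≤ ε π(x)` for EVERY `x ≥ X` with `x ^ W ≤ y`. -/
def Holds (cf : ℕ → ℕ) (δ ε : ℝ) (X W : ℕ) (y : ℝ) : Prop :=
  ∀ x : ℕ, X ≤ x → (x : ℝ) ^ W ≤ y → |(cf x : ℝ) - δ * (Nat.primeCounting x : ℝ)| ≤ ε * (Nat.primeCounting x : ℝ)

/-- the range of `x`: `exp ((log M) ^ 3 / (log U) ^ 2)` -/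
noncomputable def Y (M : ℕ) (U : ℝ) : ℝ := Real.exp ((Real.log M) ^ 3 / (Real.log U) ^ 2)

lemma cntZ_nat (d : Dat) (n x : ℕ) : cntZ d (n : ℤ) x = cntE d n x := by
  classical
  unfold cntZ cntE Pool.Agent.H386R2.Artin.PP
  rw [filter_filter]
  apply congrArg Finset.card
  apply Finset.filter_congr
  intro p _
  rw [Int.cast_natCast]

lemma holds_pos {F : IntermediateField ℚ (AlgebraicClosure ℚ)} [NumberField F] [IsGalois ℚ F]
    {C : Set (F ≃ₐ[ℚ] F)} {W₀ : Subgroup ℚˣ} {m : ℕ} {D : ℚˣ} {r : ℕ} {d : Dat} {ε : ℝ} {P0 x0 : ℕ}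
    (hcore : ∀ n : ℕ, n ≠ 0 → Pool.Agent.W171.LG.Gen P0 n → ∀ x : ℕ, x0 ≤ x →
      ε * (Nat.primeCounting x : ℝ) < |(Pool.Agent.W171.LG.Sc F C (W₀ ⊔ Subgroup.zpowers
        (Pool.Agent.W171.LG.DR D r n)) m x : ℝ) -
        (∑' e : ℕ, Pool.Agent.W171.LG.tW F C (W₀ ⊔ Subgroup.zpowers (Pool.Agent.W171.LG.DR D r n)) m e) *
          (Nat.primeCounting x : ℝ)| →
      ε / 2 * (Nat.primeCounting x : ℝ) < |(cntE d n x : ℝ) - d.A * (Nat.primeCounting x : ℝ)|)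
    {W X : ℕ} {y : ℝ} (hX : x0 ≤ X) {n : ℤ} (hn : 0 < n)
    (hgen : ∃ p : ℕ, p.Prime ∧ P0 < p ∧ (p : ℤ) ∣ n ∧ ¬ (p : ℤ) ^ 2 ∣ n)
    (h : ∀ x : ℕ, X ≤ x → (x : ℝ) ^ W ≤ y →
        |(cntZ d n x : ℝ) - d.A * (Nat.primeCounting x : ℝ)| ≤ ε / 2 * (Nat.primeCounting x : ℝ)) :
    Holds (FewExceptions.S F C (W₀ ⊔ Subgroup.closure {w : ℚˣ | (w : ℚ) = (D : ℚ) * (n : ℚ) ^ r}) m)
      (FewExceptions.δ F C (W₀ ⊔ Subgroup.closure {w : ℚˣ | (w : ℚ) = (D : ℚ) * (n : ℚ) ^ r}) m) ε X W y := by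
  obtain ⟨p, hp, hpP, hpn, hp2⟩ := hgen
  obtain ⟨n', rfl⟩ : ∃ n' : ℕ, n = n' := ⟨n.toNat, (Int.toNat_of_nonneg hn.le).symm⟩
  have hn0' : n' ≠ 0 := by omega
  have hG : Pool.Agent.W171.LG.Gen P0 n' :=
    ⟨p, hp, hpP, by exact_mod_cast hpn, fun h => hp2 (by exact_mod_cast h)⟩
  intro x hx1 hx2
  by_contra hcon
  push Not at hcon
  have h5 := h x hx1 hx2
  rw [cntZ_nat] at h5
  rw [Int.cast_natCast, Pool.Agent.W171.LG.gp_eqR W₀ D r hn0'] at hcon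
  have h6 := hcore n' hn0' hG x (by omega) hcon
  linarith

/-- **(1)** Let `f` be real analytic at `x₀`, and let `K` be the order of `f - f x₀` at `x₀`; let `δ₀ > 0` and
`0 < ε₀ < 1 / 2`. There is `W` such that for all `κ ≠ 0` the following two assertions hold.

First, let `q ≥ 1`, let `A` be a set of residue classes prime to `q`, and let `m ≥ 1`, `D ≠ 0` and `ε > 0`. There are `C` and
`X₀` such that for all `X ≥ X₀`, all `M` and `U` with `M ^ (K + δ₀) ≤ U ≤ exp ((log M) ^ (3 / 2 - ε₀))` and ALL integers `c₀`,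
almost all the integers `n = c₀ + κ ⌊U f(x₀ + 1 / i)⌋`, `M < i ≤ 2 M`, with a
proportion of at most `C log X / X` of exceptions, satisfy: for EVERY `x ≥ X` with `x ^ W ≤ exp ((log M) ^ 3 / (log U) ^ 2)`,
the number of the primes
`p ≤ x` whose class modulo `q` belongs to `A` and modulo which the index of `⟨D n ^ 2⟩` divides `m` is `δ π(x)` up to an error
of at most `ε π(x)`, where `δ = δ q A m D` is Lenstra's series (with the entanglement of the quadratic field of `D`).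

Second, let `(F, C, m)` be as in Q1, let `W₀` be a finitely generated subgroup of `ℚˣ`, `D ∈ ℚˣ`, and `r ≥ 1` such that
`ℓ ^ (ν_ℓ(m) + 1)` divides `r` for all primes `ℓ ∣ r` (every `r` if `m = 1`; `r = 1` for every `m`), `ε > 0`. There are `C'`
and `X₀` such that for every `η > 0` and all large `M`, for all `X ≥ X₀`, all `U` in the range above and all integers `c₀`:
all the integers
`n = c₀ + κ ⌊U f(x₀ + 1 / i)⌋`, `M < i ≤ 2 M`, with a proportion of at most `C' log X / X + η` of exceptions, have the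
following property: for EVERY `x ≥ X` with `x ^ W ≤ exp ((log M) ^ 3 / (log U) ^ 2)`, the number of the primes up to `x` in
`𝒮(F, C, ⟨W₀, D n ^ r⟩, m)` is `δ(F, C, ⟨W₀, D n ^ r⟩, m) π(x)` up to an error of at most `ε π(x)`.

**(2)** Part (1) applies to every function `f` which is real analytic at `x₀` and not constant near `x₀`, with a suitable `K`,
and with `K = 1` if the derivative of `f` at `x₀` is not zero; for example, to `f x = x`, `x₀ = 0`: the integers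
`⌊U / i⌋`. -/
theorem result :
    (∀ (f : ℝ → ℝ) (x₀ : ℝ) (K : ℕ), OrderAt f x₀ K → ∀ δ₀ ε₀ : ℝ, 0 < δ₀ → 0 < ε₀ → ε₀ < 1 / 2 →
      ∃ W : ℕ, 1 ≤ W ∧ ∀ κ : ℤ, κ ≠ 0 →
      (∀ (q : ℕ) [NeZero q] (A : Finset (ZMod q)ˣ) (m : ℕ), 1 ≤ m → ∀ D : ℤ, D ≠ 0 → ∀ ε : ℝ, 0 < ε →
        ∃ (C : ℝ) (X₀ : ℕ), ∀ X : ℕ, X₀ ≤ X → ∀ (M : ℕ) (U : ℝ), InRange K δ₀ ε₀ M U → ∀ c₀ : ℤ,
          Almost f x₀ U M κ c₀ (C * (Real.log X / X)) (fun n =>
            Holds (EntangledOnAverage.S q A m (D * n ^ 2)) (EntangledOnAverage.δ q A m D) ε X W (Y M U))) ∧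
      (∀ (F : IntermediateField ℚ (AlgebraicClosure ℚ)) [NumberField F] [IsGalois ℚ F]
        (C : Set (F ≃ₐ[ℚ] F)) (W₀ : Subgroup ℚˣ) (m : ℕ) (D : ℚˣ) (r : ℕ),
        (∀ σ ∈ C, ∀ τ : F ≃ₐ[ℚ] F, τ * σ * τ⁻¹ ∈ C) → W₀.FG → 0 < m →
        0 < r → (∀ l : ℕ, l.Prime → l ∣ r → l ^ (m.factorization l + 1) ∣ r) →
        ∀ ε : ℝ, 0 < ε → ∃ (C' : ℝ) (X₀ : ℕ), ∀ η : ℝ, 0 < η → ∃ M₀ : ℕ, ∀ M : ℕ, M₀ ≤ M → ∀ X : ℕ, X₀ ≤ X →
          ∀ U : ℝ, InRange K δ₀ ε₀ M U → ∀ c₀ : ℤ,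
          Almost f x₀ U M κ c₀ (C' * (Real.log X / X) + η) (fun n =>
            Holds (FewExceptions.S F C (W₀ ⊔ Subgroup.closure {w : ℚˣ | (w : ℚ) = (D : ℚ) * (n : ℚ) ^ r}) m)
              (FewExceptions.δ F C (W₀ ⊔ Subgroup.closure {w : ℚˣ | (w : ℚ) = (D : ℚ) * (n : ℚ) ^ r}) m) ε X W
              (Y M U)))) ∧
    (∀ (f : ℝ → ℝ) (x₀ : ℝ), AnalyticAt ℝ f x₀ → (¬ ∀ᶠ x in nhds x₀, f x = f x₀) → ∃ K : ℕ, OrderAt f x₀ K) ∧
    (∀ (f : ℝ → ℝ) (x₀ : ℝ), AnalyticAt ℝ f x₀ → deriv f x₀ ≠ 0 → OrderAt f x₀ 1) ∧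
    OrderAt (fun x => x) 0 1 := by
  classical
  refine ⟨fun f x₀ K hf δ₀ ε₀ hδ₀ hε₀ hε₀2 => ?_, fun f x₀ h1 h2 => Pool.Agent.W2helper30.AN.ord_exists h1 h2,
    fun f x₀ h1 h2 => Pool.Agent.W2helper30.AN.ord_one h1 h2,
    Pool.Agent.W2helper30.AN.ord_one (by fun_prop) (by simp)⟩
  have hf' : Ord f x₀ K := hf
  obtain ⟨W, hW, H⟩ := Pool.Agent.W2helper30.AN.an_dat hf' δ₀ ε₀ hδ₀ hε₀ hε₀2
  refine ⟨W, hW, fun κ hκ => ⟨fun q _ A m hm D hD ε hε => ?_, fun F _ _ C W₀ m D r hC hW₀ hm hr hrm ε hε => ?_⟩⟩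
  · have hfD : NeZero (Pool.Agent.H981R3.LN2.fD q D) := ⟨Pool.Agent.H981R3.LN2.fD_ne hD⟩
    obtain ⟨C, X₀, _, _, h⟩ := H κ hκ (Pool.Agent.H981R3.LN2.dLen2 q A m (by omega) D hD) ε hε
    refine ⟨C, X₀, fun X hX M U hU c₀ => ?_⟩
    refine almost_of (h X hX M U ⟨hU.1, hU.2⟩ c₀) fun n hn x hx1 hx2 => ?_
    have h5 := hn x hx1 hx2
    have e : EntangledOnAverage.S q A m (D * n ^ 2) x =
        cntZ (Pool.Agent.H981R3.LN2.dLen2 q A m (by omega) D hD) n x := by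
      unfold cntZ Pool.Agent.H386R2.Artin.PP EntangledOnAverage.S
      rw [filter_filter]
      apply congrArg Finset.card
      apply Finset.filter_congr_decidable _ _ _ |>.symm.trans
      apply Finset.filter_congr
      intro p _
      simp only [Pool.Agent.H981R3.LN2.dLen2, Int.cast_mul, Int.cast_pow]
      rfl
    rw [e, EntangledOnAverage.δ_eq q A m D]
    exact h5
  · obtain ⟨d, hd⟩ := Pool.Agent.W171.LG.coreR F C W₀ m D hC hW₀ hm.ne' hr hrm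
    obtain ⟨P0, x0, hcore⟩ := hd ε hε
    obtain ⟨C', X₀, hC', _, h⟩ := H κ hκ d (ε / 2) (by positivity)
    obtain ⟨d2, hd2⟩ := Pool.Agent.W171.LG.coreR F C W₀ m ((-1) ^ r * D) hC hW₀ hm.ne' hr hrm
    obtain ⟨P2, x2, hcore2⟩ := hd2 ε hε
    obtain ⟨C2, X₂, hC2, _, h2⟩ := H (-κ) (neg_ne_zero.2 hκ) d2 (ε / 2) (by positivity)
    refine ⟨C' + C2, X₀ + X₂ + x0 + x2, fun η hη => ?_⟩
    obtain ⟨M₀, hM₀⟩ := Pool.Agent.W2helper30.AN.few_nongen hf' δ₀ ε₀ hδ₀ hε₀ hε₀2 κ hκ (max P0 P2) η hη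
    refine ⟨M₀, fun M hM X hX U hU c₀ => ?_⟩
    have hU' : Rg K δ₀ ε₀ M U := ⟨hU.1, hU.2⟩
    have e1 := h X (by omega) M U hU' c₀
    have e2 := almostA_neg (h2 X (by omega) M U hU' (-c₀))
    have e3 := hM₀ M hM U hU' c₀
    have e4 := ((e1.and e2).and e3).le
      (τ' := (C' + C2) * (Real.log X / X) + η) (by linarith [add_mul C' C2 (Real.log X / X)])
    refine almost_of e4 fun n hn => ?_
    obtain ⟨⟨hn1, hn2⟩, p, hp, hpP, hpn, hpn2⟩ := hn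
    rcases lt_trichotomy n 0 with hn0 | hn0 | hn0
    · have h6 := holds_pos hcore2 (by omega : x2 ≤ X) (W := W) (y := Y M U) (n := -n) (by omega)
        ⟨p, hp, lt_of_le_of_lt (le_max_right _ _) hpP, (dvd_neg).2 hpn, fun h => hpn2 ((dvd_neg).1 h)⟩ hn2
      have e5 : {w : ℚˣ | (w : ℚ) = (((-1) ^ r * D : ℚˣ) : ℚ) * ((-n : ℤ) : ℚ) ^ r} =
          {w : ℚˣ | (w : ℚ) = (D : ℚ) * (n : ℚ) ^ r} := by
        ext w
        simp only [Set.mem_ofPred_eq]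
        push_cast
        have e6 : ((-1 : ℚ)) ^ r * (D : ℚ) * (-(n : ℚ)) ^ r = D * (n : ℚ) ^ r := by
          rw [neg_pow (n : ℚ) r]
          have e7 : ((-1 : ℚ)) ^ r * (-1) ^ r = 1 := by
            rw [← mul_pow]
            norm_num
          calc ((-1 : ℚ)) ^ r * (D : ℚ) * ((-1) ^ r * (n : ℚ) ^ r) =
                (((-1 : ℚ)) ^ r * (-1) ^ r) * ((D : ℚ) * (n : ℚ) ^ r) := by ring
            _ = _ := by rw [e7, one_mul]
        rw [e6]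
      rw [e5] at h6
      exact h6
    · exact absurd (hn0 ▸ dvd_zero _) hpn2
    · exact holds_pos hcore (by omega : x0 ≤ X) (W := W) (y := Y M U) hn0
        ⟨p, hp, lt_of_le_of_lt (le_max_left _ _) hpP, hpn, hpn2⟩ hn1

end Pool.Agent.Results.MP_48b1c3_nt.AnalyticSparseFamilies
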