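import Pool.Agent.W2helper67.FD.Dat
import Pool.Agent.W2helper67.FD.Gen
import Pool.Agent.W2helper67.FD.Ex
import Pool.Agent.W2helper67.FD.Core
import Pool.Agent.Results.MP_48b1c3_nt.EntangledOnAverage
import Pool.Agent.Results.MP_48b1c3_nt.FewExceptions

/-!
# Lenstra's density for the truncations of almost all real numbers, with respect to measures with Fourier decay

From Mathlib: `MeasureTheory.charFun μ ξ = ∫ exp (i ξ t) dμ(t)`, the characteristic function; `Measure.conv`, the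
convolution; `μ.real s`, the measure of `s` as a real number (the outer measure if `s` is not measurable).

Method: a discrete Fejer kernel gives the decay of the characteristic functions of the integer parts `⌊Z t⌋`. The passage
from the characteristic function to sums over primes of functions of residues, for almost all values, is from the starting
files (`Pool.Agent.R459.Eq`). The density series and the counting functions of the primes are those of the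
starting results `EntangledOnAverage` and `FewExceptions` of this problem.
-/

set_option autoImplicit false

namespace Pool.Agent.Results.MP_48b1c3_nt.FourierDecayMeasures

open Filter NumberField MeasureTheory
open Pool.Agent.R459.EqD (cntZ)
open Pool.Agent.H771R4.SE (Dat cntE)
open Pool.Agent.W2helper67.FD (FDec)

/-- The characteristic function of `μ` decays polynomially: `|∫ exp (i ξ t) dμ(t)| ≤ C₁ |ξ| ^ (-τ)` for `|ξ| ≥ 1`. -/
def FourierDecay (μ : Measure ℝ) (τ C₁ : ℝ) : Prop := ∀ ξ : ℝ, 1 ≤ |ξ| → ‖charFun μ ξ‖ ≤ C₁ * |ξ| ^ (-τ)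

/-- `|cf x - δ π(x)| ≤ ε π(x)` for EVERY `x ≥ X` with `x ^ W ≤ y`. -/
def Holds (cf : ℕ → ℕ) (δ ε : ℝ) (X W : ℕ) (y : ℝ) : Prop :=
  ∀ x : ℕ, X ≤ x → (x : ℝ) ^ W ≤ y → |(cf x : ℝ) - δ * (Nat.primeCounting x : ℝ)| ≤ ε * (Nat.primeCounting x : ℝ)

/-- the integer `n` is exactly divisible by a prime `p > P` -/
def Generic (P : ℕ) (n : ℤ) : Prop := ∃ p : ℕ, p.Prime ∧ P < p ∧ (p : ℤ) ∣ n ∧ ¬ ((p : ℤ) ^ 2 ∣ n)

/-- the group generated by `W₀` and `D n ^ r` -/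
def Grp (W₀ : Subgroup ℚˣ) (D : ℚˣ) (r : ℕ) (n : ℤ) : Subgroup ℚˣ :=
  W₀ ⊔ Subgroup.closure {w : ℚˣ | (w : ℚ) = (D : ℚ) * (n : ℚ) ^ r}

lemma Holds.mono {cf : ℕ → ℕ} {δ ε ε' : ℝ} {X W : ℕ} {y : ℝ} (h : Holds cf δ ε X W y) (hε : ε ≤ ε') :
    Holds cf δ ε' X W y := fun x h1 h2 =>
  (h x h1 h2).trans (mul_le_mul_of_nonneg_right hε (Nat.cast_nonneg _))

lemma cntZ_nat (d : Dat) (n x : ℕ) : cntZ d (n : ℤ) x = cntE d n x := by
  classical
  unfold cntZ cntE Pool.Agent.H386R2.Artin.PP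
  rw [Finset.filter_filter]
  apply congrArg Finset.card
  apply Finset.filter_congr
  intro p _
  rw [Int.cast_natCast]

lemma ent_iff (q : ℕ) [NeZero q] (A : Finset (ZMod q)ˣ) (m : ℕ) (hm : 1 ≤ m) (D : ℤ) (hD : D ≠ 0)
    [NeZero (Pool.Agent.H981R3.LN2.fD q D)] (n : ℤ) (x : ℕ) :
    EntangledOnAverage.S q A m (D * n ^ 2) x =
      cntZ (Pool.Agent.H981R3.LN2.dLen2 q A m (by omega) D hD) n x := by
  classical
  unfold cntZ Pool.Agent.H386R2.Artin.PP EntangledOnAverage.S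
  rw [Finset.filter_filter]
  apply congrArg Finset.card
  apply Finset.filter_congr_decidable _ _ _ |>.symm.trans
  apply Finset.filter_congr
  intro p _
  simp only [Pool.Agent.H981R3.LN2.dLen2, Int.cast_mul, Int.cast_pow]
  rfl

lemma holds_pos {F : IntermediateField ℚ (AlgebraicClosure ℚ)} [NumberField F] [IsGalois ℚ F]
    {C : Set (F ≃ₐ[ℚ] F)} {W₀ : Subgroup ℚˣ} {m : ℕ} {D : ℚˣ} {r : ℕ} {d : Dat} {ε : ℝ} {P0 x0 : ℕ}
    (hcore : ∀ n : ℕ, n ≠ 0 → Pool.Agent.W171.LG.Gen P0 n → ∀ x : ℕ, x0 ≤ x →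
      ε * (Nat.primeCounting x : ℝ) < |(Pool.Agent.W171.LG.Sc F C (W₀ ⊔ Subgroup.zpowers
        (Pool.Agent.W171.LG.DR D r n)) m x : ℝ) -
        (∑' e : ℕ, Pool.Agent.W171.LG.tW F C (W₀ ⊔ Subgroup.zpowers (Pool.Agent.W171.LG.DR D r n)) m e) *
          (Nat.primeCounting x : ℝ)| →
      ε / 2 * (Nat.primeCounting x : ℝ) < |(cntE d n x : ℝ) - d.A * (Nat.primeCounting x : ℝ)|)
    {W X : ℕ} {y : ℝ} (hX : x0 ≤ X) {n : ℤ} (hn : 0 < n)
    (hgen : ∃ p : ℕ, p.Prime ∧ P0 < p ∧ (p : ℤ) ∣ n ∧ ¬ (p : ℤ) ^ 2 ∣ n)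
    (h : ∀ x : ℕ, X ≤ x → (x : ℝ) ^ W ≤ y →
        |(cntZ d n x : ℝ) - d.A * (Nat.primeCounting x : ℝ)| ≤ ε / 2 * (Nat.primeCounting x : ℝ)) :
    Holds (FewExceptions.S F C (Grp W₀ D r n) m) (FewExceptions.δ F C (Grp W₀ D r n) m) ε X W y := by
  classical
  obtain ⟨p, hp, hpP, hpn, hp2⟩ := hgen
  obtain ⟨n', rfl⟩ : ∃ n' : ℕ, n = n' := ⟨n.toNat, (Int.toNat_of_nonneg hn.le).symm⟩
  have hn0' : n' ≠ 0 := by omega
  have hG : Pool.Agent.W171.LG.Gen P0 n' :=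
    ⟨p, hp, hpP, by exact_mod_cast hpn, fun h => hp2 (by exact_mod_cast h)⟩
  intro x hx1 hx2
  by_contra hcon
  push Not at hcon
  have h5 := h x hx1 hx2
  rw [cntZ_nat] at h5
  unfold Grp at hcon
  rw [Int.cast_natCast, Pool.Agent.W171.LG.gp_eqR W₀ D r hn0'] at hcon
  have h6 := hcore n' hn0' hG x (by omega) hcon
  linarith

/-- **(1)** Let `τ > 0`. There is `W` such that for all `C₁` and all `κ ≠ 0` the following assertions (A)-(D) hold, for ALL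
probability measures `μ` on the real line with `|∫ exp (i ξ t) dμ(t)| ≤ C₁ |ξ| ^ (-τ)` for `|ξ| ≥ 1`.

(A) Let `q ≥ 1`, let `A` be a set of residue classes prime to `q`, and let `m ≥ 1`, `D ≠ 0` and `ε > 0`. There are `C` and
`X₀` such that for all `X ≥ X₀`, all such `μ`, all real `Z` and ALL integers `c₀`, the integers `n = c₀ + κ ⌊Z t⌋` satisfy, for
all real numbers `t` outside a set of `μ`-measure at most `C log X / X`: for EVERY `x ≥ X` with `x ^ W ≤ Z`,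
the number of the primes `p ≤ x` whose class modulo `q` belongs to `A` and modulo which the index of `⟨D n ^ 2⟩` divides
`m` is `δ π(x)` up to an error of at most `ε π(x)`, where `δ = δ q A m D` is Lenstra's series (with the entanglement of the
quadratic field of `D`).

(B) Let `(F, C, m)` be as in Q1, let `W₀` be a finitely generated subgroup of `ℚˣ`, `D ∈ ℚˣ`, and `r ≥ 1` such that
`ℓ ^ (ν_ℓ(m) + 1)` divides `r` for all primes `ℓ ∣ r` (every `r` if `m = 1`; `r = 1` for every `m`), `ε > 0`. There are `C'`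
and `X₀` such that for every `η > 0`, all large `Z`, all `X ≥ X₀`, all such `μ` and all integers `c₀`: for all `t` outside a
set of `μ`-measure at most `C' log X / X + η`, the number of the primes up to `x` in
`𝒮(F, C, ⟨W₀, D n ^ r⟩, m)`, `n = c₀ + κ ⌊Z t⌋`, is `δ(F, C, ⟨W₀, D n ^ r⟩, m) π(x)` up to an error of at most `ε π(x)`,
for EVERY `x ≥ X` with `x ^ W ≤ Z`.

(C) ALL but finitely many truncations of almost all real numbers. Let `a j` be real numbers, `c j` integers, `X j` positive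
integers tending to infinity such that `∑ log (X j) / X j` converges (for example, `a j = 2 ^ j` or `a j = 10 ^ j`, and
`X j = j ^ 2`). For `μ`-almost all real numbers `t`, for all `q`, `A`, `m`, `D` and `ε` as in (A): for all but
finitely many `j`, the integer `n = c j + κ ⌊a j t⌋` satisfies the conclusion of (A) for EVERY `x ≥ X j` with `x ^ W ≤ a j`.

(D) Let `(F, C, m)`, `W₀`, `D`, `r` be as in (B). There is `A` such that
`δ(F, C, ⟨W₀, D n ^ r⟩, m)` is within `ε` of `A` for all positive integers `n` which are exactly divisible by a prime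
`p > P(ε)`, for every `ε > 0`, and such that for `a`, `c`, `X` as in (C) and `μ`-almost all real numbers `t`: for all
`ε > 0` and all but finitely many `j` for which `n = c j + κ ⌊a j t⌋` is positive, the number of the primes up to `x` in
`𝒮(F, C, ⟨W₀, D n ^ r⟩, m)` is `A π(x)` up to an error of at most `ε π(x)`, for EVERY `x ≥ X j` with `x ^ W ≤ a j`.

**(2)** The hypothesis holds with `τ = 1`, `C₁ = 2` for the uniform distributions on the intervals `[u, u + 1)`, and if it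
holds for `μ`, then it holds for the convolutions of `μ` and all probability measures (with the same `τ` and `C₁`). -/
theorem result :
    (∀ τ : ℝ, 0 < τ → ∃ W : ℕ, 1 ≤ W ∧ ∀ (C₁ : ℝ) (κ : ℤ), κ ≠ 0 →
      (∀ (q : ℕ) [NeZero q] (A : Finset (ZMod q)ˣ) (m : ℕ), 1 ≤ m → ∀ D : ℤ, D ≠ 0 → ∀ ε : ℝ, 0 < ε →
        ∃ (C : ℝ) (X₀ : ℕ), ∀ X : ℕ, X₀ ≤ X →
          ∀ (μ : Measure ℝ) [IsProbabilityMeasure μ], FourierDecay μ τ C₁ → ∀ (Z : ℝ) (c₀ : ℤ),
          μ.real {t | ¬ Holds (EntangledOnAverage.S q A m (D * (c₀ + κ * ⌊Z * t⌋) ^ 2)) (EntangledOnAverage.δ q A m D)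
            ε X W Z} ≤ C * (Real.log X / X)) ∧
      (∀ (F : IntermediateField ℚ (AlgebraicClosure ℚ)) [NumberField F] [IsGalois ℚ F]
        (C : Set (F ≃ₐ[ℚ] F)) (W₀ : Subgroup ℚˣ) (m : ℕ) (D : ℚˣ) (r : ℕ),
        (∀ σ ∈ C, ∀ τ : F ≃ₐ[ℚ] F, τ * σ * τ⁻¹ ∈ C) → W₀.FG → 0 < m →
        0 < r → (∀ l : ℕ, l.Prime → l ∣ r → l ^ (m.factorization l + 1) ∣ r) →
        ∀ ε : ℝ, 0 < ε → ∃ (C' : ℝ) (X₀ : ℕ), ∀ η : ℝ, 0 < η → ∃ Z₀ : ℝ, ∀ Z : ℝ, Z₀ ≤ Z → ∀ X : ℕ, X₀ ≤ X →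
          ∀ (μ : Measure ℝ) [IsProbabilityMeasure μ], FourierDecay μ τ C₁ → ∀ c₀ : ℤ,
          μ.real {t | ¬ Holds (FewExceptions.S F C (Grp W₀ D r (c₀ + κ * ⌊Z * t⌋)) m)
            (FewExceptions.δ F C (Grp W₀ D r (c₀ + κ * ⌊Z * t⌋)) m) ε X W Z} ≤ C' * (Real.log X / X) + η) ∧
      (∀ (μ : Measure ℝ) [IsProbabilityMeasure μ], FourierDecay μ τ C₁ → ∀ (a : ℕ → ℝ) (c : ℕ → ℤ) (X : ℕ → ℕ),
        Tendsto X atTop atTop → Summable (fun j => Real.log (X j) / X j) →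
        ∀ᵐ t ∂μ, ∀ (q : ℕ) [NeZero q] (A : Finset (ZMod q)ˣ) (m : ℕ), 1 ≤ m → ∀ D : ℤ, D ≠ 0 → ∀ ε : ℝ, 0 < ε →
          ∀ᶠ j in atTop, Holds (EntangledOnAverage.S q A m (D * (c j + κ * ⌊a j * t⌋) ^ 2))
            (EntangledOnAverage.δ q A m D) ε (X j) W (a j)) ∧
      (∀ (F : IntermediateField ℚ (AlgebraicClosure ℚ)) [NumberField F] [IsGalois ℚ F]
        (C : Set (F ≃ₐ[ℚ] F)) (W₀ : Subgroup ℚˣ) (m : ℕ) (D : ℚˣ) (r : ℕ),
        (∀ σ ∈ C, ∀ τ : F ≃ₐ[ℚ] F, τ * σ * τ⁻¹ ∈ C) → W₀.FG → 0 < m →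
        0 < r → (∀ l : ℕ, l.Prime → l ∣ r → l ^ (m.factorization l + 1) ∣ r) →
        ∃ A : ℝ, (∀ ε : ℝ, 0 < ε → ∃ P : ℕ, ∀ n : ℤ, 0 < n → Generic P n →
            |FewExceptions.δ F C (Grp W₀ D r n) m - A| ≤ ε) ∧
          ∀ (μ : Measure ℝ) [IsProbabilityMeasure μ], FourierDecay μ τ C₁ → ∀ (a : ℕ → ℝ) (c : ℕ → ℤ) (X : ℕ → ℕ),
          Tendsto X atTop atTop → Summable (fun j => Real.log (X j) / X j) →
          ∀ᵐ t ∂μ, ∀ ε : ℝ, 0 < ε → ∀ᶠ j in atTop, 0 < c j + κ * ⌊a j * t⌋ →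
            Holds (FewExceptions.S F C (Grp W₀ D r (c j + κ * ⌊a j * t⌋)) m) A ε (X j) W (a j))) ∧
    (∀ u : ℝ, IsProbabilityMeasure (volume.restrict (Set.Ico u (u + 1))) ∧
      FourierDecay (volume.restrict (Set.Ico u (u + 1))) 1 2) ∧
    (∀ (μ ν : Measure ℝ) [IsProbabilityMeasure μ] [IsProbabilityMeasure ν] (τ C₁ : ℝ), FourierDecay μ τ C₁ →
      FourierDecay (μ.conv ν) τ C₁) := by
  classical
  refine ⟨fun τ hτ => ?_, fun u => ⟨Pool.Agent.W2helper67.FD.prob_unif u, Pool.Agent.W2helper67.FD.fdec_unif u⟩,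
    fun μ ν _ _ τ C₁ h => Pool.Agent.W2helper67.FD.fdec_conv μ ν h⟩
  obtain ⟨W, hW, H⟩ := Pool.Agent.W2helper67.FD.fd_dat hτ
  refine ⟨W, hW, fun C₁ κ hκ => ?_⟩
  have PA : ∀ (q : ℕ) [NeZero q] (A : Finset (ZMod q)ˣ) (m : ℕ), 1 ≤ m → ∀ D : ℤ, D ≠ 0 → ∀ ε : ℝ, 0 < ε →
        ∃ (C : ℝ) (X₀ : ℕ), 0 ≤ C ∧ ∀ X : ℕ, X₀ ≤ X →
          ∀ (μ : Measure ℝ) [IsProbabilityMeasure μ], FourierDecay μ τ C₁ → ∀ (Z : ℝ) (c₀ : ℤ),
          μ.real {t | ¬ Holds (EntangledOnAverage.S q A m (D * (c₀ + κ * ⌊Z * t⌋) ^ 2)) (EntangledOnAverage.δ q A m D)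
            ε X W Z} ≤ C * (Real.log X / X) := by
    intro q _ A m hm D hD ε hε
    have hfD : NeZero (Pool.Agent.H981R3.LN2.fD q D) := ⟨Pool.Agent.H981R3.LN2.fD_ne hD⟩
    obtain ⟨C, X₀, hC, _, h⟩ := H κ hκ C₁ (Pool.Agent.H981R3.LN2.dLen2 q A m (by omega) D hD) ε hε
    refine ⟨C, X₀, hC.le, fun X hX μ _ hμ Z c₀ => ?_⟩
    refine le_trans (measureReal_mono fun t ht => ?_) (h X hX μ hμ Z c₀)
    intro hcon
    apply ht
    intro x hx1 hx2
    have h5 := hcon x hx1 hx2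
    rw [ent_iff q A m hm D hD, EntangledOnAverage.δ_eq q A m D]
    exact h5
  refine ⟨fun q _ A m hm D hD ε hε => ?_, fun F _ _ C W₀ m D r hC hW₀ hm hr hrm ε hε => ?_,
    fun μ _ hμ a c X hX hsum => ?_, fun F _ _ C W₀ m D r hC hW₀ hm hr hrm => ?_⟩
  · obtain ⟨C, X₀, _, h⟩ := PA q A m hm D hD ε hε
    exact ⟨C, X₀, h⟩
  · obtain ⟨d, hd⟩ := Pool.Agent.W171.LG.coreR F C W₀ m D hC hW₀ hm.ne' hr hrm
    obtain ⟨P0, x0, hcore⟩ := hd ε hε
    obtain ⟨C', X₀, hC', _, h⟩ := H κ hκ C₁ d (ε / 2) (by positivity)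
    obtain ⟨d2, hd2⟩ := Pool.Agent.W171.LG.coreR F C W₀ m ((-1) ^ r * D) hC hW₀ hm.ne' hr hrm
    obtain ⟨P2, x2, hcore2⟩ := hd2 ε hε
    obtain ⟨C2, X₂, hC2, _, h2⟩ := H (-κ) (neg_ne_zero.2 hκ) C₁ d2 (ε / 2) (by positivity)
    refine ⟨C' + C2, X₀ + X₂ + x0 + x2, fun η hη => ?_⟩
    obtain ⟨Z₀, hZ₀⟩ := Pool.Agent.W2helper67.FD.few_nongen (C₀ := C₁) hτ κ hκ (max P0 P2) η hη
    refine ⟨Z₀, fun Z hZ X hX μ _ hμ c₀ => ?_⟩
    have e1 := h X (by omega) μ hμ Z c₀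
    have e2 := h2 X (by omega) μ hμ Z (-c₀)
    have e3 := hZ₀ Z hZ μ hμ c₀
    obtain ⟨s1, hs1⟩ : ∃ s1 : Set ℝ, s1 = {t | ¬ ∀ x : ℕ, X ≤ x → (x : ℝ) ^ W ≤ Z →
        |(cntZ d (c₀ + κ * ⌊Z * t⌋) x : ℝ) - d.A * (Nat.primeCounting x : ℝ)| ≤
          ε / 2 * (Nat.primeCounting x : ℝ)} := ⟨_, rfl⟩
    obtain ⟨s2, hs2⟩ : ∃ s2 : Set ℝ, s2 = {t | ¬ ∀ x : ℕ, X ≤ x → (x : ℝ) ^ W ≤ Z →
        |(cntZ d2 (-c₀ + -κ * ⌊Z * t⌋) x : ℝ) - d2.A * (Nat.primeCounting x : ℝ)| ≤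
          ε / 2 * (Nat.primeCounting x : ℝ)} := ⟨_, rfl⟩
    obtain ⟨s3, hs3⟩ : ∃ s3 : Set ℝ, s3 = {t | ¬ ∃ p : ℕ, p.Prime ∧ max P0 P2 < p ∧ (p : ℤ) ∣ c₀ + κ * ⌊Z * t⌋ ∧
        ¬ (p : ℤ) ^ 2 ∣ c₀ + κ * ⌊Z * t⌋} := ⟨_, rfl⟩
    rw [← hs1] at e1
    rw [← hs2] at e2
    rw [← hs3] at e3
    have hsub : {t | ¬ Holds (FewExceptions.S F C (Grp W₀ D r (c₀ + κ * ⌊Z * t⌋)) m)
        (FewExceptions.δ F C (Grp W₀ D r (c₀ + κ * ⌊Z * t⌋)) m) ε X W Z} ⊆ s1 ∪ s2 ∪ s3 := by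
      intro t ht
      by_contra hcon
      rw [Set.mem_union, Set.mem_union, not_or, not_or, hs1, hs2, hs3] at hcon
      simp only [Set.mem_ofPred_eq, not_not] at hcon
      obtain ⟨⟨hn1, hn2⟩, p, hp, hpP, hpn, hpn2⟩ := hcon
      apply ht
      obtain ⟨n, hn⟩ : ∃ n : ℤ, n = c₀ + κ * ⌊Z * t⌋ := ⟨_, rfl⟩
      have hneg : -c₀ + -κ * ⌊Z * t⌋ = -n := by rw [hn]; ring
      rw [hneg] at hn2
      rw [← hn] at hn1 hpn hpn2 ⊢
      rcases lt_trichotomy n 0 with hn0 | hn0 | hn0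
      · have h6 := holds_pos hcore2 (by omega : x2 ≤ X) (W := W) (y := Z) (n := -n) (by omega)
          ⟨p, hp, lt_of_le_of_lt (le_max_right _ _) hpP, (dvd_neg).2 hpn, fun h => hpn2 ((dvd_neg).1 h)⟩ hn2
        have e5 : Grp W₀ ((-1) ^ r * D) r (-n) = Grp W₀ D r n := by
          unfold Grp
          congr 2
          ext w
          simp only [Set.mem_ofPred_eq]
          push_cast
          have e6 : ((-1 : ℚ)) ^ r * (D : ℚ) * (-(n : ℚ)) ^ r = D * (n : ℚ) ^ r := by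
            rw [neg_pow (n : ℚ) r]
            have e7 : ((-1 : ℚ)) ^ r * (-1) ^ r = 1 := by
              rw [← mul_pow]
              norm_num
            calc ((-1 : ℚ)) ^ r * (D : ℚ) * ((-1) ^ r * (n : ℚ) ^ r) =
                  (((-1 : ℚ)) ^ r * (-1) ^ r) * ((D : ℚ) * (n : ℚ) ^ r) := by ring
              _ = _ := by rw [e7, one_mul]
          rw [e6]
        rw [e5] at h6
        exact h6
      · exact absurd (hn0 ▸ dvd_zero _) hpn2
      · exact holds_pos hcore (by omega : x0 ≤ X) (W := W) (y := Z) hn0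
          ⟨p, hp, lt_of_le_of_lt (le_max_left _ _) hpP, hpn, hpn2⟩ hn1
    calc _ ≤ μ.real (s1 ∪ s2 ∪ s3) := measureReal_mono hsub
      _ ≤ μ.real (s1 ∪ s2) + μ.real s3 := measureReal_union_le _ _
      _ ≤ μ.real s1 + μ.real s2 + μ.real s3 := by
          have := measureReal_union_le (μ := μ) s1 s2
          linarith
      _ ≤ C' * (Real.log X / X) + C2 * (Real.log X / X) + η := by linarith
      _ = _ := by ring
  · -- almost all real numbers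
    have hfix : ∀ᵐ t ∂μ, ∀ (q : ℕ) (_ : NeZero q) (A : Finset (ZMod q)ˣ) (m : ℕ) (_ : 1 ≤ m) (D : ℤ) (_ : D ≠ 0) (i : ℕ),
        ∀ᶠ j in atTop, Holds (EntangledOnAverage.S q A m (D * (c j + κ * ⌊a j * t⌋) ^ 2))
            (EntangledOnAverage.δ q A m D) (1 / ((i : ℝ) + 1)) (X j) W (a j) := by
      refine ae_all_iff.2 fun q => ae_all_iff.2 fun hq => ae_all_iff.2 fun A => ae_all_iff.2 fun m =>
        ae_all_iff.2 fun hm => ae_all_iff.2 fun D => ae_all_iff.2 fun hD => ae_all_iff.2 fun i => ?_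
      obtain ⟨C, X₀, hC, h⟩ := PA q A m hm D hD (1 / ((i : ℝ) + 1)) (by positivity)
      have h1 := Pool.Agent.W2helper67.FD.borel μ
        (fun j => {t | ¬ Holds (EntangledOnAverage.S q A m (D * (c j + κ * ⌊a j * t⌋) ^ 2))
            (EntangledOnAverage.δ q A m D) (1 / ((i : ℝ) + 1)) (X j) W (a j)}) C hC X₀ X hX hsum
        (fun j hj => h (X j) hj μ hμ (a j) (c j))
      filter_upwards [h1] with t ht
      filter_upwards [ht] with j hj
      by_contra hcon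
      exact hj hcon
    filter_upwards [hfix] with t ht q hq A m hm D hD ε hε
    obtain ⟨i, hi⟩ := exists_nat_one_div_lt hε
    filter_upwards [ht q hq A m hm D hD i] with j hj
    exact hj.mono hi.le
  · obtain ⟨d, ⟨P1, hP1⟩, hd⟩ := Pool.Agent.W2helper67.FD.core2 F C W₀ m D hC hW₀ hm.ne' hr hrm
    refine ⟨d.A, fun ε hε => ?_, fun μ _ hμ a c X hX hsum => ?_⟩
    · obtain ⟨P0, hP0⟩ := hd ε hε
      refine ⟨P0, fun n hn hgen => ?_⟩
      obtain ⟨p, hp, hpP, hpn, hp2⟩ := hgen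
      obtain ⟨n', rfl⟩ : ∃ n' : ℕ, n = n' := ⟨n.toNat, (Int.toNat_of_nonneg hn.le).symm⟩
      have hn0' : n' ≠ 0 := by omega
      have hG : Pool.Agent.W171.LG.Gen P0 n' :=
        ⟨p, hp, hpP, by exact_mod_cast hpn, fun h => hp2 (by exact_mod_cast h)⟩
      unfold Grp
      rw [Int.cast_natCast, Pool.Agent.W171.LG.gp_eqR W₀ D r hn0']
      exact hP0 n' hn0' hG
    · have hfix : ∀ᵐ t ∂μ, ∀ i : ℕ, ∀ᶠ j in atTop, ∀ x : ℕ, X j ≤ x → (x : ℝ) ^ W ≤ a j →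
          |(cntZ d (c j + κ * ⌊a j * t⌋) x : ℝ) - d.A * (Nat.primeCounting x : ℝ)| ≤
            1 / ((i : ℝ) + 1) * (Nat.primeCounting x : ℝ) := by
        refine ae_all_iff.2 fun i => ?_
        obtain ⟨C', X₀, hC', _, h⟩ := H κ hκ C₁ d (1 / ((i : ℝ) + 1)) (by positivity)
        have h1 := Pool.Agent.W2helper67.FD.borel μ
          (fun j => {t | ¬ ∀ x : ℕ, X j ≤ x → (x : ℝ) ^ W ≤ a j →
          |(cntZ d (c j + κ * ⌊a j * t⌋) x : ℝ) - d.A * (Nat.primeCounting x : ℝ)| ≤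
            1 / ((i : ℝ) + 1) * (Nat.primeCounting x : ℝ)}) C' hC'.le X₀ X hX hsum
          (fun j hj => h (X j) hj μ hμ (a j) (c j))
        filter_upwards [h1] with t ht
        filter_upwards [ht] with j hj
        by_contra hcon
        exact hj hcon
      filter_upwards [hfix] with t ht ε hε
      obtain ⟨i, hi⟩ := exists_nat_one_div_lt (half_pos hε)
      have hpi : Tendsto (fun x : ℕ => (Nat.primeCounting x : ℝ)) atTop atTop :=
        tendsto_natCast_atTop_atTop.comp Nat.tendsto_primeCounting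
      obtain ⟨x0, hx0⟩ := eventually_atTop.1 (hpi.eventually_ge_atTop (2 * P1 / ε))
      filter_upwards [ht i, hX.eventually_ge_atTop x0] with j hj hXj hpos
      obtain ⟨n', hn'⟩ : ∃ n' : ℕ, c j + κ * ⌊a j * t⌋ = n' := ⟨(c j + κ * ⌊a j * t⌋).toNat,
        (Int.toNat_of_nonneg hpos.le).symm⟩
      rw [hn'] at hj hpos ⊢
      have hn0' : n' ≠ 0 := by omega
      intro x hx1 hx2
      have h1 := hj x hx1 hx2
      rw [cntZ_nat] at h1
      have h2 := hP1 n' hn0' x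
      have h3 := hx0 x (hXj.trans hx1)
      rw [div_le_iff₀ hε] at h3
      have h4 : (0 : ℝ) ≤ Nat.primeCounting x := Nat.cast_nonneg _
      have h5 : 1 / ((i : ℝ) + 1) * (Nat.primeCounting x : ℝ) ≤ ε / 2 * (Nat.primeCounting x : ℝ) :=
        mul_le_mul_of_nonneg_right hi.le h4
      have h6 : (FewExceptions.S F C (Grp W₀ D r (n' : ℤ)) m x : ℝ) =
          (Pool.Agent.W171.LG.Sc F C (W₀ ⊔ Subgroup.zpowers (Pool.Agent.W171.LG.DR D r n')) m x : ℝ) := by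
        unfold Grp
        rw [Int.cast_natCast, Pool.Agent.W171.LG.gp_eqR W₀ D r hn0']
        rfl
      rw [h6]
      rw [abs_le] at h1 h2 ⊢
      constructor <;> linarith

end Pool.Agent.Results.MP_48b1c3_nt.FourierDecayMeasures
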